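import Pool.Agent.Helper29_TDG.Stmts
import Pool.Agent.Helper53_TDG.Comp

/-!
# Total domination game: case IIb
-/

namespace Pool.Agent.TDG.H66

open Finset Helper77.TDG

theorem cIIb (hDR : DRStmt) (hUH : UHStmt) (hSU : SUStmt) (hXE : XEStmt) (hCL : CLStmt) :
    CIIbStmt := by
  intro V X _ _ _ N Hv U A hctx hF hAne hneg
  have hMM : MM N Hv U = Gam N Hv U := by
    unfold MM
    rw [hF, zero_add]
  obtain ⟨z, hz⟩ := hAne
  -- tight sets
  have htight : ∃ P, P ⊆ A ∧ P.Nonempty ∧ sf N Hv U P = -1 := by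
    obtain ⟨P, h1, h2, h3⟩ := (hXE V X N Hv U A hctx).2 {z} (singleton_subset_iff.2 hz)
      (singleton_nonempty z)
    have hPne : P.Nonempty := ⟨z, h1 (mem_singleton_self z)⟩
    refine ⟨P, h2, hPne, ?_⟩
    have h4 := hneg P h2 hPne
    have h5 : ph N U {z} ≤ 2 := by
      unfold ph
      rw [card_singleton]
      have : (0 : ℤ) ≤ ((J N U {z}).card : ℤ) := Int.natCast_nonneg _
      push_cast
      linarith
    rw [hF] at h3
    linarith
  -- a minimal one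
  obtain ⟨B, hB⟩ : ∃ B, (B ⊆ A ∧ B.Nonempty ∧ sf N Hv U B = -1) ∧
      ∀ B', B' ⊆ A → B'.Nonempty → sf N Hv U B' = -1 → B.card ≤ B'.card := by
    classical
    let S : Finset (Finset X) := A.powerset.filter fun P => P.Nonempty ∧ sf N Hv U P = -1
    have hS : S.Nonempty := by
      obtain ⟨P, h1, h2, h3⟩ := htight
      exact ⟨P, by simp only [S, Finset.mem_filter, mem_powerset]; exact ⟨h1, h2, h3⟩⟩
    obtain ⟨B, hB, hmin⟩ := exists_min_image S (fun P => P.card) hS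
    simp only [S, Finset.mem_filter, mem_powerset] at hB hmin
    exact ⟨B, ⟨hB.1, hB.2.1, hB.2.2⟩, fun B' h1 h2 h3 => hmin B' ⟨h1, h2, h3⟩⟩
  obtain ⟨⟨hBA, hBne, hBt⟩, hBmin⟩ := hB
  -- it closes a cluster
  have hbcne : (bc N Hv U B).Nonempty := by
    by_contra hemp
    rw [not_nonempty_iff_eq_empty] at hemp
    have h1 : ph N U B = 1 := by
      unfold sf at hBt
      rw [hemp, card_empty] at hBt
      push_cast at hBt
      linarith
    obtain ⟨P, h2, h3, h4⟩ := (hXE V X N Hv U A hctx).2 B hBA hBne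
    have h5 := hneg P h3 (hBne.mono h2)
    rw [hF, h1] at h4
    linarith
  obtain ⟨C, hC⟩ := hbcne
  rw [hUH V X N Hv U A B C hctx.hW hctx.hA hBA] at hC
  obtain ⟨hCA, htokB⟩ := hC
  obtain ⟨_, _, _, htokA, ⟨w, hw⟩, hpl, hthr⟩ := hCL V X N Hv U A C hctx hCA
  obtain ⟨v, hwv, hvC⟩ := hthr w hw
  obtain ⟨_, hlight, _⟩ := hpl v hvC
  have hwA : w ∈ A := htokA hw
  have hwU : w ∈ U := (mem_sdiff.1 (hctx.hA.1 hwA)).1
  have hvU : (N v ∩ U).Nonempty := ⟨w, mem_inter.2 ⟨hwv, hwU⟩⟩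
  obtain ⟨P, hPA, hvP, h1, h2⟩ := hDR V X N Hv U A v hctx.hW hctx.ih hctx.hA hvU hlight
  have hJ : (1 : ℤ) ≤ ((J N U (N v ∩ U)).card : ℤ) := by
    have : 0 < (J N U (N v ∩ U)).card := card_pos.2 ⟨v, mem_J.2 ⟨hvU, Subset.refl _⟩⟩
    exact_mod_cast this
  have hwP : w ∈ P := hvP (mem_inter.2 ⟨hwv, hwA⟩)
  have hPneg := hneg P hPA ⟨w, hwP⟩
  refine ⟨v, hvU, ?_⟩
  rw [hMM]
  by_cases hs : sf N Hv U P ≤ -2
  · linarith
  by_cases ht : tok N U C ⊆ P
  · have h3 := h2 C hCA hvC ht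
    linarith
  exfalso
  have hPt : sf N Hv U P = -1 := by
    push Not at hs
    linarith
  have hwPB : w ∈ P ∩ B := mem_inter.2 ⟨hwP, htokB hw⟩
  have hPBA : P ∩ B ⊆ A := inter_subset_right.trans hBA
  have hlt : (P ∩ B).card < B.card := by
    apply card_lt_card
    refine ⟨inter_subset_right, fun hsub => ht ?_⟩
    exact htokB.trans (hsub.trans inter_subset_left)
  have h3 := hneg (P ∩ B) hPBA ⟨w, hwPB⟩
  have h4 : sf N Hv U (P ∩ B) ≠ -1 := fun h => by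
    have := hBmin (P ∩ B) hPBA ⟨w, hwPB⟩ h
    omega
  have h5 := hneg (P ∪ B) (union_subset hPA hBA) ⟨w, mem_union_left _ hwP⟩
  have h6 := hSU V X N Hv U A P B hctx.hW hctx.hA hPA hBA
  have h7 : (0 : ℤ) ≤ ((newc N Hv U A P B).card : ℤ) := Int.natCast_nonneg _
  omega

end Pool.Agent.TDG.H66
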