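import Pool.Agent.Helper29_TDG.Stmts
import Pool.Agent.Helper53_TDG.Comp

/-!
# Total domination game: the data attached to a cluster closed by `A`
-/

namespace Pool.Agent.TDG.H66

open Finset Helper77.TDG

theorem mem_tok {V X : Type} [Fintype V] [DecidableEq V] [DecidableEq X] {N : V → Finset X}
    {U C : Finset X} {x : X} :
    x ∈ tok N U C ↔ (∃ v, (N v ∩ C).Nonempty ∧ x ∈ N v ∧ x ∈ U) ∧ x ∉ C := by
  unfold tok
  simp only [mem_sdiff, mem_biUnion, mem_alive, mem_inter]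

theorem cl : CLStmt := by
  intro V X _ _ _ N Hv U A C hctx hC
  rw [mem_bc] at hC
  obtain ⟨hcl, hbad⟩ := hC
  have hne : C.Nonempty := hbad.1.1
  have hCUA : C ⊆ U \ A := hcl.1
  have hdis : Disjoint C A := by
    rw [disjoint_left]
    intro x hx hxA
    exact (mem_sdiff.1 (hCUA hx)).2 hxA
  have hCU : C ⊆ U := hCUA.trans sdiff_subset
  have hCH : Disjoint C Hv := hbad.2.1.1
  have hCUH : C ⊆ U \ Hv := by
    intro x hx
    exact mem_sdiff.2 ⟨hCU hx, disjoint_left.1 hCH hx⟩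
  have hAU : A ⊆ U \ Hv := hctx.hA.1
  have htokA : tok N U C ⊆ A := by
    intro x hx
    rw [mem_tok] at hx
    obtain ⟨⟨v, hv, hxv, hxU⟩, hxC⟩ := hx
    by_contra hxA
    exact hxC (hcl.2 v hv (mem_inter.2 ⟨hxv, mem_sdiff.2 ⟨hxU, hxA⟩⟩))
  have htokne : (tok N U C).Nonempty := by
    by_contra hemp
    rw [not_nonempty_iff_eq_empty] at hemp
    have hclU : Closed N U C := by
      refine ⟨hCU, fun v hv x hx => ?_⟩
      rw [mem_inter] at hx
      by_contra hxC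
      have : x ∈ tok N U C := mem_tok.2 ⟨⟨v, hv, hx.1, hx.2⟩, hxC⟩
      rw [hemp] at this
      exact absurd this (notMem_empty x)
    have hCeq : C = U := hctx.hc.2 C hne hclU
    rw [hCeq] at hbad
    exact hctx.hb hbad
  refine ⟨hne, hdis, hCUH, htokA, htokne, ?_, ?_⟩
  · intro v hv
    refine ⟨hbad.2.1.2 v hv, ?_, ?_⟩
    · intro x hx
      rw [mem_inter] at hx
      by_cases hxA : x ∈ A
      · exact hAU hxA
      · exact hCUH (hcl.2 v hv (mem_inter.2 ⟨hx.1, mem_sdiff.2 ⟨hx.2, hxA⟩⟩))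
    · intro x hx
      rw [mem_inter] at hx
      refine mem_tok.2 ⟨⟨v, hv, hx.1, (mem_sdiff.1 (hAU hx.2)).1⟩, ?_⟩
      intro hxC
      exact disjoint_left.1 hdis hxC hx.2
  · intro w hw
    rw [mem_tok] at hw
    obtain ⟨⟨v, hv, hwv, _⟩, _⟩ := hw
    exact ⟨v, hwv, hv⟩

end Pool.Agent.TDG.H66
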